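import Pool.Agent.Lib.MP_688fd0_co.SQ4.Iface

/-!
Row DSTRC of board `sqc_modules`: the quotient by `C₁ = N ⊓ N₁`.

(1) `P` does not divide the order of `N₁`: in `ker eps` the subgroup of order `P` is central, so it has a normal
complement `K`, which consists of the elements of order prime to `P` and contains all commutators; so `N₁ ≤ K`.

(2) Let `M`, `E` be the images of `N` and `N₁` in `Q = G / C₁`. Then `M ∩ E = 1`. Take `D` = all `x` in `Q₊ = ker eps`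
which are central in `Q₊` modulo `E` and satisfy `x ^ k ∈ E`. It is a normal subgroup, it contains `E` (so all rotations
of `A`), and it meets `M` trivially, so its order divides `k`. For `w = a b⁻¹` put `z = w ^ (k j)`, `k j = 1` modulo
`|M|`. Then `z ∈ M`, `(z⁻¹ w) ^ k = 1`, and `[g, z] ∈ M ∩ E = 1` for `g ∈ Q₊`.
-/

set_option autoImplicit false

namespace Pool.Agent.Lib.MP_688fd0_co.SQ4.H87

open Pool.Agent.Lib.MP_688fd0_co.OSF Pool.Agent.Lib.MP_688fd0_co.SQ2 Pool.Agent.Lib.MP_688fd0_co.SQ3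

/-- A central Hall subgroup has a normal complement, which contains all commutators and all elements of prime order. -/
theorem compl {H : Type*} [Group H] [Finite H] (Y : Subgroup H) (hY : ∀ y ∈ Y, ∀ g, y * g = g * y)
    (hc : (Nat.card Y).Coprime Y.index) :
    ∃ K : Subgroup H, (Nat.card K).Coprime (Nat.card Y) ∧ (∀ x, (orderOf x).Coprime (Nat.card Y) → x ∈ K) ∧
      ∀ x y : H, x * y * x⁻¹ * y⁻¹ ∈ K := by
  have hn : Y.Normal := ⟨fun y hy g => by rw [← hY y hy g, mul_inv_cancel_right]; exact hy⟩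
  obtain ⟨K, hK⟩ := Subgroup.exists_right_complement'_of_coprime (N := Y) hc
  have hKk : Nat.card K = Y.index := by rw [← hK.symm.index_eq_card]
  have hdec : ∀ x, ∃ n ∈ Y, ∃ κ ∈ K, n * κ = x := fun x => by
    obtain ⟨⟨n, κ⟩, h⟩ := hK.2 x
    exact ⟨n, n.2, κ, κ.2, h⟩
  refine ⟨K, by rw [hKk]; exact hc.symm, ?_, ?_⟩
  · intro x hx
    obtain ⟨y, hy, κ, hκ, rfl⟩ := hdec x
    have h1 : (y * κ) ^ orderOf (y * κ) = 1 := pow_orderOf_eq_one _
    rw [(show Commute y κ from hY y hy κ).mul_pow] at h1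
    have h2 : y ^ orderOf (y * κ) ∈ K := by
      rw [eq_inv_of_mul_eq_one_left h1]
      exact K.inv_mem (K.pow_mem hκ _)
    have h3 : y ^ orderOf (y * κ) = 1 := by
      have h4 := Subgroup.disjoint_def.1 hK.disjoint (Y.pow_mem hy _) h2
      exact h4
    have h4 : orderOf y ∣ orderOf (y * κ) := orderOf_dvd_of_pow_eq_one h3
    have h5 : orderOf y ∣ Nat.card Y := by
      rw [← Subgroup.orderOf_mk y hy]
      exact orderOf_dvd_natCard _
    have h6 : orderOf y = 1 := Nat.eq_one_of_dvd_coprimes hx h4 h5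
    rw [orderOf_eq_one_iff.1 h6, one_mul]
    exact hκ
  · intro x y
    obtain ⟨n, hn, κ, hκ, rfl⟩ := hdec x
    obtain ⟨n', hn', κ', hκ', rfl⟩ := hdec y
    have h1 : n * κ * (n' * κ') * (n * κ)⁻¹ * (n' * κ')⁻¹ = κ * κ' * κ⁻¹ * κ'⁻¹ := by
      have e1 : n' * (κ' * κ⁻¹) = κ' * κ⁻¹ * n' := hY n' hn' _
      have e2 : n * (κ * κ' * κ⁻¹) = κ * κ' * κ⁻¹ * n := hY n hn _
      calc n * κ * (n' * κ') * (n * κ)⁻¹ * (n' * κ')⁻¹
          = n * κ * (n' * (κ' * κ⁻¹)) * n⁻¹ * κ'⁻¹ * n'⁻¹ := by group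
        _ = n * κ * (κ' * κ⁻¹ * n') * n⁻¹ * κ'⁻¹ * n'⁻¹ := by rw [e1]
        _ = n * (κ * κ' * κ⁻¹) * n' * n⁻¹ * κ'⁻¹ * n'⁻¹ := by group
        _ = κ * κ' * κ⁻¹ * n * n' * n⁻¹ * κ'⁻¹ * n'⁻¹ := by rw [e2]
        _ = κ * κ' * κ⁻¹ * (n' * (n * n⁻¹ * κ'⁻¹)) * n'⁻¹ := by
            rw [hY n' hn' (n * n⁻¹ * κ'⁻¹)]
            have e3 : n * n' = n' * n := hY n hn n'
            have e4 : n' * κ'⁻¹ = κ'⁻¹ * n' := hY n' hn' _
            simp only [mul_assoc]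
            rw [← mul_assoc n n', e3, mul_assoc n' n, ← mul_assoc n n⁻¹ (κ'⁻¹ * n'⁻¹), mul_inv_cancel, one_mul,
              ← mul_assoc n' κ'⁻¹, e4]
            simp
        _ = κ * κ' * κ⁻¹ * κ'⁻¹ := by
            rw [hY n' hn' (n * n⁻¹ * κ'⁻¹)]
            group
    rw [h1]
    exact K.mul_mem (K.mul_mem (K.mul_mem hκ hκ') (K.inv_mem hκ)) (K.inv_mem hκ')

/-- The elements of order `P` of `N` are inverted or centralised by `eps`. -/
theorem conj_P {G : Type*} [Group G] [Finite G] {N C : Subgroup G} {eps : G →* ℤˣ} {k P : ℕ}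
    (h : SQ2.H41.GNE N C eps k P) {y : G} (hy : y ∈ N) (hyP : orderOf y = P) (g : G) :
    g * y * g⁻¹ = y ^ ((eps g : ℤˣ) : ℤ) := by
  have hNcomm : ∀ x ∈ N, ∀ y ∈ N, x * y = y * x := SQ2.H41.comm_of_cyclic N h.Nc
  have h1 := h.act y hy g
  have h2 : (g * y * g⁻¹ * (y ^ ((eps g : ℤˣ) : ℤ))⁻¹) ^ P = 1 := by
    have h3 : Commute (g * y * g⁻¹) (y ^ ((eps g : ℤˣ) : ℤ))⁻¹ :=
      hNcomm _ (h.Nn.conj_mem y hy g) _ (N.inv_mem (N.zpow_mem hy _))
    have h4 : y ^ P = 1 := by rw [← hyP, pow_orderOf_eq_one]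
    rw [h3.mul_pow, conj_pow, h4, mul_one, mul_inv_cancel, one_mul, inv_pow, ← zpow_natCast, ← zpow_mul, mul_comm,
      zpow_mul, zpow_natCast, h4, one_zpow, inv_one]
  have h5 : g * y * g⁻¹ * (y ^ ((eps g : ℤˣ) : ℤ))⁻¹ = 1 := by
    have h6 : orderOf (g * y * g⁻¹ * (y ^ ((eps g : ℤˣ) : ℤ))⁻¹) ∣ P := orderOf_dvd_of_pow_eq_one h2
    rcases (Nat.dvd_prime h.prime).1 h6 with h7 | h7
    · exact orderOf_eq_one_iff.1 h7
    · refine absurd ?_ h.ndvd
      have h8 : P ∣ Nat.card C := by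
        conv_lhs => rw [← h7]
        rw [← Subgroup.orderOf_mk _ h1]
        exact orderOf_dvd_natCard _
      exact h8
  exact mul_inv_eq_one.1 h5

theorem cop_nOne {G : Type*} [Group G] [Finite G] {N C : Subgroup G} {eps : G →* ℤˣ} {k P : ℕ}
    (h : SQ2.H41.GNE N C eps k P) {A : Set G} (hA : ∀ g ∈ A, ¬ P ∣ orderOf g) {a b : G} (ha : eps a = -1)
    (hb : eps b = -1) : ¬ P ∣ Nat.card (nOne eps A a b) ∧ nOne eps A a b ≤ eps.ker := by
  have hPp := h.prime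
  have : Fact P.Prime := ⟨h.prime⟩
  obtain ⟨⟨y, hyN⟩, hy⟩ := exists_prime_orderOf_dvd_card' (G := N) P h.dvd
  have hyP : orderOf y = P := by rw [← hy, Subgroup.orderOf_mk]
  set Gp := eps.ker with hGp
  have hyG : y ∈ Gp := h.eN y hyN
  set Y : Subgroup Gp := Subgroup.zpowers ⟨y, hyG⟩ with hY
  have hYc : Nat.card Y = P := by rw [hY, Nat.card_zpowers, Subgroup.orderOf_mk, hyP]
  have hyc : ∀ g ∈ Gp, y * g = g * y := by
    intro g hg
    have h1 := conj_P h hyN hyP g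
    have h2 : eps g = 1 := hg
    rw [h2, Units.val_one, zpow_one] at h1
    exact (mul_inv_eq_iff_eq_mul.1 h1).symm
  have hYcen : ∀ x ∈ Y, ∀ g, x * g = g * x := by
    intro x hx g
    obtain ⟨i, rfl⟩ := Subgroup.mem_zpowers_iff.1 hx
    have h1 : Commute (⟨y, hyG⟩ : Gp) g := Subtype.ext (hyc g g.2)
    exact (h1.zpow_left i)
  have hidx : (Nat.card Y).Coprime Y.index := by
    rw [hYc]
    refine (Nat.Prime.coprime_iff_not_dvd hPp).2 fun h1 => h.sq ?_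
    have h2 : Nat.card Y * Y.index = Nat.card Gp := Y.card_mul_index
    have h3 : Nat.card Gp ∣ Nat.card G := Subgroup.card_subgroup_dvd_card _
    refine dvd_trans ?_ h3
    rw [← h2, hYc, pow_two]
    exact Nat.mul_dvd_mul_left _ h1
  obtain ⟨K, hK1, hK2, hK3⟩ := compl Y hYcen hidx
  rw [hYc] at hK1 hK2
  have hKn : (K.map Gp.subtype).Normal := by
    refine ⟨?_⟩
    rintro _ ⟨κ, hκ, rfl⟩ g
    have h1 : g * (κ : G) * g⁻¹ ∈ Gp := (MonoidHom.normal_ker eps).conj_mem _ κ.2 g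
    refine ⟨⟨g * (κ : G) * g⁻¹, h1⟩, hK2 _ ?_, rfl⟩
    have h2 : orderOf (⟨g * (κ : G) * g⁻¹, h1⟩ : Gp) = orderOf κ := by
      rw [Subgroup.orderOf_mk]
      have h3 : orderOf (κ : G) = orderOf (g * (κ : G) * g⁻¹) :=
        SemiconjBy.orderOf_eq g (by show g * (κ : G) = g * (κ : G) * g⁻¹ * g; group)
      rw [← h3, Subgroup.orderOf_coe]
    rw [h2]
    refine Nat.Coprime.coprime_dvd_left ?_ hK1
    rw [← Subgroup.orderOf_mk κ hκ]
    exact orderOf_dvd_natCard _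
  have hw : a * b⁻¹ ∈ Gp := by
    rw [hGp, MonoidHom.mem_ker, map_mul, map_inv, ha, hb]
    decide
  have hle : nOne eps A a b ≤ K.map Gp.subtype := by
    refine Subgroup.normalClosure_le_normal ?_
    rintro x (⟨hx, hx1⟩ | ⟨g, hg, rfl⟩)
    · have hx2 : x ∈ Gp := hx1
      refine ⟨⟨x, hx2⟩, hK2 _ ?_, rfl⟩
      rw [Subgroup.orderOf_mk]
      exact ((Nat.Prime.coprime_iff_not_dvd hPp).2 (hA x hx)).symm
    · exact ⟨⟨g, hg⟩ * ⟨a * b⁻¹, hw⟩ * ⟨g, hg⟩⁻¹ * ⟨a * b⁻¹, hw⟩⁻¹, hK3 _ _, rfl⟩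
  refine ⟨fun h1 => ?_, hle.trans ?_⟩
  · have h2 : Nat.card (nOne eps A a b) ∣ Nat.card (K.map Gp.subtype) := Subgroup.card_dvd_of_le hle
    have h3 : Nat.card (K.map Gp.subtype) ∣ Nat.card K := Subgroup.card_map_dvd K _
    have h4 := Nat.eq_one_of_dvd_coprimes hK1 ((h1.trans h2).trans h3) dvd_rfl
    exact hPp.one_lt.ne' h4
  · rintro _ ⟨κ, -, rfl⟩
    exact κ.2

theorem dstr : DstrCS := by
  intro G _ _ N C eps k P h A hsym hgen hAN hAP hrot a haA b hbA ha hb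
  have := h.Nn
  have := h.Nc
  obtain ⟨hcop, hle⟩ := cop_nOne h.toGNE hAP ha hb
  have hNn1 : (nOne eps A a b).Normal := Subgroup.normalClosure_normal
  have hCn : (cOne N eps A a b).Normal := by
    unfold cOne
    infer_instance
  refine ⟨hCn, fun h1 => hcop (h1.trans (Subgroup.card_dvd_of_le inf_le_right)), ?_⟩
  intro C₁ hC₁n hC₁ h1
  set N₁ := nOne eps A a b with hN₁
  have hC₁N : C₁ ≤ N := hC₁ ▸ inf_le_left
  have hC₁E : C₁ ≤ N₁ := hC₁ ▸ inf_le_right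
  have hNcomm : ∀ x ∈ N, ∀ y ∈ N, x * y = y * x := SQ2.H41.comm_of_cyclic N h.Nc
  set π := QuotientGroup.mk' C₁ with hπ
  have hsurj : Function.Surjective π := QuotientGroup.mk'_surjective C₁
  have hker : ∀ x, π x = 1 ↔ x ∈ C₁ := fun x => QuotientGroup.eq_one_iff x
  set M : Subgroup (G ⧸ C₁) := N.map π with hM
  set E : Subgroup (G ⧸ C₁) := N₁.map π with hE
  have hMn : M.Normal := h.Nn.map π hsurj
  have hEn : E.Normal := hNn1.map π hsurj
  have hMk : M.index = k := by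
    rw [hM, Subgroup.index_map, QuotientGroup.ker_mk', sup_of_le_left hC₁N,
      MonoidHom.range_eq_top.2 hsurj, Subgroup.index_top, mul_one, h.idx]
  have hMd : Nat.card M ∣ Nat.card N := Subgroup.card_map_dvd N π
  have hMcop : (Nat.card M).Coprime k := h.cop.coprime_dvd_left hMd
  have hk0 : 0 < k := by
    rw [← h.idx]; exact Nat.pos_of_ne_zero N.index_ne_zero_of_finite
  -- `E` and `M` meet trivially
  have hEM : ∀ x, x ∈ E → x ∈ M → x = 1 := by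
    rintro _ ⟨x, hx, rfl⟩ ⟨y, hy, hxy⟩
    have h1 : y⁻¹ * x ∈ C₁ := by
      rw [← hker, map_mul, map_inv, hxy, inv_mul_cancel]
    have h2 : x ∈ N := by
      have := N.mul_mem hy (hC₁N h1)
      rwa [mul_inv_cancel_left] at this
    exact (hker x).2 (hC₁ ▸ ⟨h2, hx⟩)
  have hMpow : ∀ x ∈ M, x ^ k = 1 → x = 1 := by
    intro x hx hxk
    have h2 : x ^ Nat.card M = 1 := by
      have h3 : (⟨x, hx⟩ : M) ^ Nat.card M = 1 := pow_card_eq_one'
      exact congrArg Subtype.val h3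
    have h3 : orderOf x = 1 :=
      Nat.eq_one_of_dvd_coprimes hMcop (orderOf_dvd_of_pow_eq_one h2) (orderOf_dvd_of_pow_eq_one hxk)
    exact orderOf_eq_one_iff.1 h3
  have hkM : ∀ x : G ⧸ C₁, x ^ k ∈ M := by
    intro x
    have h2 := Subgroup.pow_index_mem M x
    rwa [hMk] at h2
  -- the character
  have hC₁k : ∀ g ∈ C₁, eps g = 1 := fun g hg => h.eN g (hC₁N hg)
  set eps' : G ⧸ C₁ →* ℤˣ := QuotientGroup.lift C₁ eps hC₁k with heps
  have heps' : ∀ g, eps' (π g) = eps g := fun g => rfl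
  have hEk : ∀ x ∈ E, eps' x = 1 := by
    rintro _ ⟨x, hx, rfl⟩
    rw [heps']
    exact hle hx
  -- the centre of `ker eps'` modulo `E`
  have hcE : ∀ x y g : G ⧸ C₁, g * x * g⁻¹ * x⁻¹ ∈ E → g * y * g⁻¹ * y⁻¹ ∈ E → g * (x * y) * g⁻¹ * (x * y)⁻¹ ∈ E := by
    intro x y g hx hy
    have h2 : g * (x * y) * g⁻¹ * (x * y)⁻¹ = (g * x * g⁻¹ * x⁻¹) * (x * (g * y * g⁻¹ * y⁻¹) * x⁻¹) := by group
    rw [h2]
    exact E.mul_mem hx (hEn.conj_mem _ hy x)
  have hpowE : ∀ x y : G ⧸ C₁, x * y * x⁻¹ * y⁻¹ ∈ E → x ^ k ∈ E → y ^ k ∈ E → (x * y) ^ k ∈ E := by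
    intro x y hxy hx hy
    rw [← QuotientGroup.eq_one_iff] at hxy hx hy ⊢
    rw [QuotientGroup.mk_pow] at hx hy ⊢
    rw [QuotientGroup.mk_mul] at hxy ⊢
    have h2 : Commute (x : (G ⧸ C₁) ⧸ E) (y : (G ⧸ C₁) ⧸ E) := by
      rw [QuotientGroup.mk_mul, QuotientGroup.mk_mul, QuotientGroup.mk_inv, QuotientGroup.mk_inv] at hxy
      exact mul_inv_eq_iff_eq_mul.1 (mul_inv_eq_one.1 hxy)
    rw [h2.mul_pow, hx, hy, one_mul]
  set D : Subgroup (G ⧸ C₁) :=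
    { carrier := {x | eps' x = 1 ∧ (∀ g, eps' g = 1 → g * x * g⁻¹ * x⁻¹ ∈ E) ∧ x ^ k ∈ E}
      one_mem' := ⟨map_one _, fun g _ => by simp [E.one_mem], by simp [E.one_mem]⟩
      mul_mem' := by
        rintro x y ⟨hx1, hx2, hx3⟩ ⟨hy1, hy2, hy3⟩
        exact ⟨by rw [map_mul, hx1, hy1, one_mul], fun g hg => hcE x y g (hx2 g hg) (hy2 g hg),
          hpowE x y (hy2 x hx1) hx3 hy3⟩
      inv_mem' := by
        rintro x ⟨hx1, hx2, hx3⟩
        refine ⟨by rw [map_inv, hx1, inv_one], fun g hg => ?_, by rw [inv_pow]; exact E.inv_mem hx3⟩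
        have h2 : g * x⁻¹ * g⁻¹ * x⁻¹⁻¹ = x⁻¹ * (g * x * g⁻¹ * x⁻¹)⁻¹ * x⁻¹⁻¹ := by group
        rw [h2]
        exact hEn.conj_mem _ (E.inv_mem (hx2 g hg)) x⁻¹ } with hD
  have hDmem : ∀ x, x ∈ D ↔ eps' x = 1 ∧ (∀ g, eps' g = 1 → g * x * g⁻¹ * x⁻¹ ∈ E) ∧ x ^ k ∈ E := fun _ => Iff.rfl
  have hDn : D.Normal := by
    refine ⟨fun x hx y => ?_⟩
    obtain ⟨hx1, hx2, hx3⟩ := hx
    have hc : eps' (y * x * y⁻¹) = 1 := by rw [map_mul, map_mul, hx1, mul_one, map_inv, mul_inv_cancel]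
    refine ⟨hc, fun g hg => ?_, by rw [conj_pow]; exact hEn.conj_mem _ hx3 y⟩
    have h3 : eps' (y⁻¹ * g * y) = 1 := by rw [map_mul, map_mul, hg, mul_one, map_inv, inv_mul_cancel]
    have h2 : g * (y * x * y⁻¹) * g⁻¹ * (y * x * y⁻¹)⁻¹ =
        y * ((y⁻¹ * g * y) * x * (y⁻¹ * g * y)⁻¹ * x⁻¹) * y⁻¹ := by group
    rw [h2]
    exact hEn.conj_mem _ (hx2 _ h3) y
  have hED : E ≤ D := by
    intro x hx
    exact ⟨hEk x hx, fun g _ => E.mul_mem (hEn.conj_mem x hx g) (E.inv_mem hx), E.pow_mem hx k⟩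
  have hDM : ∀ x ∈ D, x ∈ M → x = 1 := by
    intro x hx hxM
    exact hMpow x hxM (hEM _ hx.2.2 (M.pow_mem hxM k))
  have hDk : Nat.card D ∣ k := by
    have h2 : Disjoint D M := Subgroup.disjoint_def.2 fun hx hy => hDM _ hx hy
    have h3 : Nat.card D = Nat.card (D.map (QuotientGroup.mk' M)) := by
      refine Nat.card_congr (Equiv.ofBijective (fun x => ⟨QuotientGroup.mk' M x.1, x.1, x.2, rfl⟩) ⟨?_, ?_⟩)
      · intro x y hxy
        have h4 : QuotientGroup.mk' M x.1 = QuotientGroup.mk' M y.1 := congrArg Subtype.val hxy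
        have h5 : x.1⁻¹ * y.1 ∈ M := QuotientGroup.eq.1 h4
        have h6 := hDM _ (D.mul_mem (D.inv_mem x.2) y.2) h5
        exact Subtype.ext (inv_mul_eq_one.1 h6)
      · rintro ⟨_, x, hx, rfl⟩
        exact ⟨⟨x, hx⟩, rfl⟩
    rw [h3, ← hMk, Subgroup.index]
    exact Subgroup.card_subgroup_dvd_card _
  -- the element `z`
  set w := π (a * b⁻¹) with hw
  have hwe : eps' w = 1 := by
    rw [hw, heps', map_mul, map_inv, ha, hb]
    decide
  have hwc : ∀ g, eps' g = 1 → g * w * g⁻¹ * w⁻¹ ∈ E := by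
    intro g hg
    obtain ⟨g, rfl⟩ := hsurj g
    rw [heps'] at hg
    refine ⟨g * (a * b⁻¹) * g⁻¹ * (a * b⁻¹)⁻¹, Subgroup.subset_normalClosure (Or.inr ⟨g, hg, rfl⟩), ?_⟩
    rw [map_mul, map_mul, map_mul, map_inv, map_inv]
  have hwpc : ∀ n : ℕ, ∀ g, eps' g = 1 → g * w ^ n * g⁻¹ * (w ^ n)⁻¹ ∈ E := by
    intro n g hg
    induction n with
    | zero => simp [E.one_mem]
    | succ n ih =>
      rw [pow_succ]
      exact hcE _ _ g ih (hwc g hg)
  obtain ⟨j, hj⟩ : ∃ j : ℕ, w ^ (k * j) ∈ M ∧ (w ^ (k * j)) ^ k = w ^ k := by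
    have h2 : (orderOf (w ^ k)).Coprime k := by
      refine hMcop.coprime_dvd_left ?_
      rw [← Subgroup.orderOf_mk _ (hkM w)]
      exact orderOf_dvd_natCard _
    obtain ⟨t, ht⟩ := exists_pow_eq_self_of_coprime h2.symm
    refine ⟨t, by rw [pow_mul]; exact M.pow_mem (hkM w) t, ?_⟩
    rw [← pow_mul, ← pow_mul] at ht
    rw [← pow_mul, ← ht, mul_comm k (t), mul_assoc, ← mul_assoc t]
    congr 1
    ring
  obtain ⟨hjM, hjk⟩ := hj
  set z := w ^ (k * j) with hz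
  obtain ⟨u, hu, huz⟩ := hjM
  have hzM : z ∈ M := ⟨u, hu, huz⟩
  have hzc : ∀ x, eps' x = 1 → x * z = z * x := by
    intro x hx
    have h2 := hEM _ (hwpc (k * j) x hx) (M.mul_mem (hMn.conj_mem z hzM x) (M.inv_mem hzM))
    exact mul_inv_eq_iff_eq_mul.1 (mul_inv_eq_one.1 h2)
  have hzo : (orderOf z).Coprime k := by
    refine hMcop.coprime_dvd_left ?_
    rw [← Subgroup.orderOf_mk _ hzM]
    exact orderOf_dvd_natCard _
  have hzw : Commute z w := by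
    rw [hz]
    exact (Commute.refl w).pow_left _
  have hδ : z⁻¹ * w ∈ D := by
    refine ⟨?_, fun g hg => ?_, ?_⟩
    · rw [map_mul, map_inv, hwe, hz, map_pow, hwe, one_pow, inv_one, mul_one]
    · refine hcE _ _ g ?_ (hwc g hg)
      have h2 : g * z⁻¹ * g⁻¹ * z⁻¹⁻¹ = z⁻¹ * (g * z * g⁻¹ * z⁻¹)⁻¹ * z⁻¹⁻¹ := by group
      rw [h2]
      exact hEn.conj_mem _ (E.inv_mem (hwpc _ g hg)) z⁻¹
    · have h2 : (z⁻¹ * w) ^ k = 1 := by
        rw [(hzw.inv_left).mul_pow, inv_pow, hjk, inv_mul_cancel]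
      rw [h2]
      exact E.one_mem
  refine ⟨D, z, u, eps', heps', hu, huz, ?_⟩
  intro a' b' ha' hb'
  have hq : ∀ s : (qLb C₁ A hsym h1).L, (qLb C₁ A hsym h1).q s = π s.1 := fun _ => rfl
  refine
    { fin := inferInstance
      finL := Subtype.finite
      gen := ?_
      kpos := hk0
      nD := hDn
      leD := fun x hx => hx.1
      card := hDk
      ea := by rw [hq, heps', ha', ha]
      eb := by rw [hq, heps', hb', hb]
      near := ?_
      rot := ?_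
      cen := hzc
      cop := hzo
      mem := ?_ }
  · rw [eq_top_iff]
    have h2 : Subgroup.map π (Subgroup.closure A) = ⊤ := by
      rw [hgen, ← MonoidHom.range_eq_map, MonoidHom.range_eq_top.2 hsurj]
    rw [← h2, MonoidHom.map_closure, Subgroup.closure_le]
    rintro _ ⟨g, hg, rfl⟩
    by_cases hg1 : g = 1
    · rw [hg1, map_one]
      exact Subgroup.one_mem _
    · exact Subgroup.subset_closure ⟨⟨g, hg, hg1⟩, rfl⟩
  · intro s hs
    rw [hq, heps'] at hs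
    rw [hq]
    exact hED ⟨s.1, Subgroup.subset_normalClosure (Or.inl ⟨s.2.1, hs⟩), rfl⟩
  · obtain ⟨r, hr, hr1, hr2⟩ := hrot
    exact ⟨⟨r, hr, hr2⟩, (heps' r).trans hr1⟩
  · rw [hq, hq, ha', hb', ← map_inv, ← map_mul, ← hw]
    exact hδ

end Pool.Agent.Lib.MP_688fd0_co.SQ4.H87
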