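import Pool.Agent.Lib.MP_688fd0_co.SQ4.H87.StkB
import Pool.Agent.Lib.MP_688fd0_co.SQ4.H59.FlipB

/-!
Row STK of WORLD (type C1): without flips the sum of the weights over the coset of a bad letter is zero.
-/

set_option autoImplicit false

namespace Pool.Agent.Lib.MP_688fd0_co.SQ4

open Pool.Agent.Lib.MP_688fd0_co.OSF Pool.Agent.Lib.MP_688fd0_co.SQ2 Pool.Agent.Lib.MP_688fd0_co.SQ3

namespace H87

section core

variable {Q : Type} [Group Q] [DecidableEq Q] {B : Lb.{0, 0} Q} {a b : B.L} {eps : Q →* ℤˣ} {D : Subgroup Q} {z : Q}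
  {k : ℕ} (H : HypC B a b eps D z k) {F : Finset Q}

/-- A block of the strands is a block above a window of height `n`. -/
theorem top_of {U : Up B} {t₀ n h : ℕ} {X : TW B} {xs : Q} (hX : Flat U X n xs) (hL : X.L₀ = im (U.U ^ t₀) F)
    {p : {v // v ∈ F} → List B.L} (hp : VBk U (fun v : {v // v ∈ F} => (v : Q)) (t₀ + n) h 1 p) :
    Top U X n h (atS U (fun v : {v // v ∈ F} => (v : Q)) (t₀ + n) p []) := by
  have hfr : ∀ i, im (U.U ^ i) X.L₀ = frS U (fun v : {v // v ∈ F} => (v : Q)) Subtype.val_injective (t₀ + i) := by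
    intro i
    rw [hL]
    ext y
    rw [mem_im, mem_im, mem_frS]
    constructor
    · intro h1
      refine ⟨⟨_, h1⟩, ?_⟩
      show (U.U ^ (t₀ + i)) ((U.U ^ t₀)⁻¹ ((U.U ^ i)⁻¹ y)) = y
      rw [U.U_pow_add]
      simp
    · rintro ⟨s, rfl⟩
      rw [U.U_pow_add]
      simp
  have h1 := hp.blk Subtype.val_injective
  have hL1 : X.L₁ = frS U (fun v : {v // v ∈ F} => (v : Q)) Subtype.val_injective (t₀ + n) := by
    rw [hX.top, hfr]
  refine ⟨?_, ?_⟩
  · rw [hfr, hL1, ← add_assoc]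
    have h2 : ∀ y ∈ frS U (fun v : {v // v ∈ F} => (v : Q)) Subtype.val_injective (t₀ + n),
        atS U (fun v : {v // v ∈ F} => (v : Q)) (t₀ + n)
          (fun s => (U.U ^ (t₀ + n + h)) (((1 : Equiv.Perm {v // v ∈ F}) s : {v // v ∈ F}) : Q)) 1 y = (U.U ^ h) y := by
      intro y hy
      obtain ⟨s, rfl⟩ := mem_frS.1 hy
      rw [atS_eq Subtype.val_injective, U.U_pow_add (t₀ + n)]
      rfl
    refine ⟨fun y hy => ?_, fun y hy => ?_, fun y hy y' hy' e => ?_, fun x hx => ?_⟩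
    · rw [h1.fin y hy, h2 y hy]
    · have := h1.mem y hy
      rwa [h2 y hy] at this
    · exact (U.U ^ h).injective e
    · obtain ⟨y, hy, rfl⟩ := h1.surj x hx
      exact ⟨y, hy, (h2 y hy).symm⟩
  · rw [hL1, hp.bR Subtype.val_injective, Finset.sum_Ico_eq_sum_range, Finset.sum_Ico_eq_sum_range,
      Nat.add_sub_cancel_left, Nat.add_sub_cancel_left]
    refine Finset.sum_congr rfl fun i _ => ?_
    rw [hfr, add_assoc]

open Classical in
/-- The core: a set `κ` of strands closed under the move `t` of the letter `lt`. -/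
theorem core (hF : ∀ s ∈ F, ∀ δ ∈ D, s * δ ∈ F) {t₀ : ℕ} {x s₁ s₂ : Q} {R : Type} [Field R] {V : Vd B R}
    (hz : V.chi z = 1) (hk : (k : R) ≠ 0) {w : Q → R} (hw : ∀ s ∈ F, w ((H.up.U ^ t₀) s) = w s) {X : TW B} {n : ℕ}
    (hX : FWin H.up (2 * k) F t₀ x s₁ s₂ X n) {Λ : ℕ} (hN : CV.NoFl H F t₀ x s₁ s₂ Λ V w)
    (hΛ : 2 * n + 2 * k * k ≤ Λ) {t : Q} (ht : t ∈ D) (hc : V.chi t = 1) {lt : B.L} {N₀ : ℕ}
    (hl : Ltr B a b t lt N₀) (hn : V.n lt ≠ V.n (if N₀ % 2 = 0 then a else B.inv b)) {κ : Q → Prop} {e₀ : ℕ}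
    (hκ : ∀ v ∈ F, κ v → κ (shf eps (B.q a) t v)) (he : ∀ v ∈ F, κ v → eeC eps v = e₀) :
    ∑ v ∈ F, (if κ v then CV.wStb x s₁ s₂ w v * V.chi (rfC eps (B.q a) v) else 0) = 0 := by
  have hfin := H.fin
  obtain ⟨π, p1, p2⟩ := exists_perm H hF ht hκ
  obtain ⟨q, C, c1, c2, c3, c4⟩ := exists_one H ht he p1 p2 hl (t₀ + n) V hc
  set m := orderOf t with hm
  have hmk : m ∣ k := by
    refine dvd_trans ?_ H.card
    have h1 : orderOf (⟨t, ht⟩ : D) = m := Subgroup.orderOf_mk t ht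
    rw [← h1]
    exact orderOf_dvd_natCard _
  have hm0 : (m : R) ≠ 0 := by
    obtain ⟨c, hc'⟩ := hmk
    intro h0
    apply hk
    rw [hc', Nat.cast_mul, h0, zero_mul]
  have hmk' : m ≤ k := Nat.le_of_dvd H.kpos hmk
  have hzk : V.chi (z ^ k) = 1 := by rw [map_pow, hz, one_pow]
  -- the power of the permutation
  have hpi : π ^ m = 1 := by
    refine Equiv.ext fun v => ?_
    by_cases hv : κ v
    · have h1 := (perm_pow H ht hκ p1 m v hv).2
      rw [hm, pow_orderOf_eq_one, shf_one] at h1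
      exact Subtype.ext h1
    · exact perm_pow' p2 m v hv
  have hK := rep_vbk (perC H) c2 m
  rw [hpi] at hK
  have hP := VBk.str H.up (fun v : {v // v ∈ F} => (v : Q)) (t₀ + n) (2 * k * m)
  have T1 := top_of hX.flat hX.L₀ hP
  have T2 := top_of hX.flat hX.L₀ hK
  obtain ⟨n', hn'⟩ := hX.dvd
  have hper : ∀ y, (H.up.U ^ (n + 2 * k * m)) y = (z ^ k) ^ (n' + m) * y := by
    intro y
    rw [hn', ← Nat.mul_add, per_mul (perC H)]
  obtain ⟨W, W', a1, a2, a3, a4, a5, a6, a7⟩ := stack2 hX.flat hper T1 T2 V w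
  have h0 : dvolw V w W W' = 0 := by
    refine hN W W' (n + 2 * k * m + n) ?_ ⟨by rw [a2, hX.L₀], by rw [a4, hX.u₁], by rw [a3, hX.u₀], a1.flat, ?_⟩ a1
    · have := Nat.mul_le_mul_left (2 * k) hmk'
      omega
    · exact Nat.dvd_add (Nat.dvd_add hX.dvd (Nat.dvd_mul_right _ _)) hX.dvd
  rw [a7, hX.L₀] at h0
  have e1 : ∀ G : Q → R, ∑ v ∈ im (H.up.U ^ t₀) F, G v = ∑ v ∈ F, G ((H.up.U ^ t₀) v) := by
    intro G
    unfold im
    rw [Finset.sum_map]
    rfl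
  rw [e1] at h0
  have hs₂ : s₂ ∈ F := by
    have h2 := (TW.mem_tok₀.1 hX.flat.xs_mem).1
    rw [hX.L₀] at h2
    exact map_mem_im.1 h2
  -- the volumes of the blocks
  have hplain : ∀ v : {v // v ∈ F}, V.vol ((H.up.U ^ (t₀ + n)) (v : Q))
      (H.up.str (2 * k * m) ((H.up.U ^ (t₀ + n)) (v : Q))) =
      m * V.vol ((H.up.U ^ (t₀ + n)) (v : Q)) (H.up.str (2 * k) ((H.up.U ^ (t₀ + n)) (v : Q))) := by
    intro v
    generalize (H.up.U ^ (t₀ + n)) (v : Q) = y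
    have : ∀ j : ℕ, V.vol y (H.up.str (2 * k * j) y) = j * V.vol y (H.up.str (2 * k) y) := by
      intro j
      induction j with
      | zero => rw [Nat.cast_zero, zero_mul]; rfl
      | succ j ih =>
        rw [Nat.mul_succ, H.up.str_add, vol_append, ih, H.up.fin_str, per_mul (perC H), vol_tr, map_pow, hzk, one_pow,
          one_mul]
        have h3 : H.up.str (2 * k) ((z ^ k) ^ j * y) = H.up.str (2 * k) y := by
          have h4 : ∀ (i : ℕ) (y : Q), H.up.str i (z ^ k * y) = H.up.str i y := by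
            intro i
            induction i with
            | zero => intro y; rfl
            | succ i ih => intro y; rw [H.up.str_succ, H.up.str_succ, (perC H).up, per_com (perC H), ih]
          have h5 : ∀ j : ℕ, H.up.str (2 * k) ((z ^ k) ^ j * y) = H.up.str (2 * k) y := by
            intro j
            induction j with
            | zero => rw [pow_zero, one_mul]
            | succ j ih => rw [pow_succ', mul_assoc, h4, ih]
          exact h5 j
        rw [h3, Nat.cast_succ]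
        ring
    exact this m
  set Δ := V.n lt - V.n (if N₀ % 2 = 0 then a else B.inv b) with hΔ
  have hpl : ∀ v v' : {v // v ∈ F}, (v' : Q) = shf eps (B.q a) (1 : Q) v ∨ (∃ j : ℕ, (v' : Q) =
      shf eps (B.q a) (t ^ j) v) → V.vol ((H.up.U ^ (t₀ + n)) (v' : Q)) (H.up.str (2 * k) ((H.up.U ^ (t₀ + n)) (v' : Q))) =
      V.vol ((H.up.U ^ (t₀ + n)) (v : Q)) (H.up.str (2 * k) ((H.up.U ^ (t₀ + n)) (v : Q))) := by
    have key : ∀ v v' : {v // v ∈ F}, ∀ j : ℕ, (v' : Q) = shf eps (B.q a) (t ^ j) v →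
        V.vol ((H.up.U ^ (t₀ + n)) (v' : Q)) (H.up.str (2 * k) ((H.up.U ^ (t₀ + n)) (v' : Q))) =
        V.vol ((H.up.U ^ (t₀ + n)) (v : Q)) (H.up.str (2 * k) ((H.up.U ^ (t₀ + n)) (v : Q))) := by
      intro v v' j hj
      have htj := D.pow_mem ht j
      have hsh : Sh D ((H.up.U ^ (t₀ + n)) (v : Q)) ((H.up.U ^ (t₀ + n)) (v' : Q)) := by
        rw [hj]
        exact (shuC H).pow _ (sh_shf H htj _)
      have hv1 : ∀ (x : Q) (L : List B.L), V.vol x L = V.chi x * V.vol 1 L := fun x L => by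
        have := vol_tr V x 1 L
        rwa [mul_one] at this
      rw [str_sh H hsh, hv1 ((H.up.U ^ (t₀ + n)) (v' : Q)), hv1 ((H.up.U ^ (t₀ + n)) (v : Q)), hj, U_shf H htj,
        U_rf_pow H (t₀ + n) (v : Q), map_mul, map_mul, map_pow, hc, one_pow, one_mul, map_mul]
    rintro v v' (h | ⟨j, h⟩)
    · exact key v v' 0 (by rw [pow_zero]; exact h)
    · exact key v v' j h
  have hdel : ∀ v : {v // v ∈ F}, V.vol ((H.up.U ^ (t₀ + n)) (v : Q)) (repP π q m v) -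
      V.vol ((H.up.U ^ (t₀ + n)) (v : Q)) (H.up.str (2 * k * m) ((H.up.U ^ (t₀ + n)) (v : Q))) =
      if κ v then m * (C * Δ) * V.chi (rfC eps (B.q a) v) else 0 := by
    intro v
    rw [hplain]
    by_cases hv : κ v
    · rw [if_pos hv, rep_vol (perC H) c2 V hzk (s := v) (c := V.vol ((H.up.U ^ (t₀ + n)) (v : Q))
        (H.up.str (2 * k) ((H.up.U ^ (t₀ + n)) (v : Q))) + V.chi (rfC eps (B.q a) v) * (C * Δ)) ?_]
      · ring
      · intro j
        obtain ⟨h3, h4⟩ := perm_pow H ht hκ p1 j v hv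
        rw [c3 _ h3, hpl v _ (Or.inr ⟨j, h4⟩), h4, rf_shf H (D.pow_mem ht j), map_mul, map_pow, hc, one_pow, mul_one]
    · rw [if_neg hv, rep_vol (perC H) c2 V hzk (s := v) (c := V.vol ((H.up.U ^ (t₀ + n)) (v : Q))
        (H.up.str (2 * k) ((H.up.U ^ (t₀ + n)) (v : Q)))) ?_, sub_self]
      intro j
      rw [perm_pow' p2 j v hv, c4 v hv]
  have h1 : ∑ v ∈ F, (if κ v then CV.wStb x s₁ s₂ w v * V.chi (rfC eps (B.q a) v) else 0) * (m * (C * Δ)) = 0 := by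
    refine Eq.trans ?_ h0
    refine Finset.sum_congr rfl fun v hv => ?_
    have h2 : (H.up.U ^ n) ((H.up.U ^ t₀) v) = (H.up.U ^ (t₀ + n)) v := (H.up.U_pow_add _ _ _).symm
    have h3 := atS_eq (U := H.up) (g := fun v : {v // v ∈ F} => (v : Q)) Subtype.val_injective (t₀ + n)
      (repP π q m) [] ⟨v, hv⟩
    have h4 := atS_eq (U := H.up) (g := fun v : {v // v ∈ F} => (v : Q)) Subtype.val_injective (t₀ + n)
      (fun s : {v // v ∈ F} => H.up.str (2 * k * m) ((H.up.U ^ (t₀ + n)) (s : Q))) [] ⟨v, hv⟩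
    rw [h2, show ((H.up.U ^ (t₀ + n)) v) = (H.up.U ^ (t₀ + n)) ((⟨v, hv⟩ : {v // v ∈ F}) : Q) from rfl, h3, h4,
      hdel ⟨v, hv⟩]
    have h5 : (if (H.up.U ^ t₀) v = X.u₁ then - w ((H.up.U ^ t₀) s₂) else if (H.up.U ^ t₀) v = X.u₀ then
        w ((H.up.U ^ t₀) s₂) else w ((H.up.U ^ t₀) v)) = CV.wStb x s₁ s₂ w v := by
      unfold CV.wStb
      rw [hX.u₁, hX.u₀, hw s₂ hs₂, hw v hv]
      simp only [EmbeddingLike.apply_eq_iff_eq]
    rw [h5]
    show _ = _ * (if κ v then m * (C * Δ) * V.chi (rfC eps (B.q a) v) else 0)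
    split_ifs
    · ring
    · ring
  rw [← Finset.sum_mul] at h1
  exact (mul_eq_zero.1 h1).resolve_right (mul_ne_zero hm0 (mul_ne_zero c1.ne_zero (sub_ne_zero.2 hn)))

open Classical in
/-- The sum of the weights over any set of strands closed under the move `t`. -/
theorem core2 (hF : ∀ s ∈ F, ∀ δ ∈ D, s * δ ∈ F) {t₀ : ℕ} {x s₁ s₂ : Q} {R : Type} [Field R] {V : Vd B R}
    (hz : V.chi z = 1) (hk : (k : R) ≠ 0) {w : Q → R} (hw : ∀ s ∈ F, w ((H.up.U ^ t₀) s) = w s) {X : TW B} {n : ℕ}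
    (hX : FWin H.up (2 * k) F t₀ x s₁ s₂ X n) {Λ : ℕ} (hN : CV.NoFl H F t₀ x s₁ s₂ Λ V w)
    (hΛ : 2 * n + 2 * k * k ≤ Λ) {t : Q} (ht : t ∈ D) (hc : V.chi t = 1) {lt : B.L} {N₀ : ℕ}
    (hl : Ltr B a b t lt N₀) (hn : V.n lt ≠ V.n (if N₀ % 2 = 0 then a else B.inv b)) {A : Q → Prop}
    (hA : ∀ v ∈ F, A v → A (shf eps (B.q a) t v)) : CV.sumOn F A (CV.wStb x s₁ s₂ w) = 0 := by
  unfold CV.sumOn
  rw [← Finset.sum_filter]
  set φ : Q → R × ℕ := fun v => (V.chi (rfC eps (B.q a) v), eeC eps v) with hφ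
  rw [← Finset.sum_fiberwise_of_maps_to (s := F.filter A) (t := (F.filter A).image φ) (g := φ)
    (fun v hv => Finset.mem_image_of_mem φ hv)]
  refine Finset.sum_eq_zero fun y hy => ?_
  obtain ⟨v₁, hv₁, rfl⟩ := Finset.mem_image.1 hy
  have h1 := core H hF hz hk hw hX hN hΛ ht hc hl hn (κ := fun v => A v ∧ φ v = φ v₁) (e₀ := eeC eps v₁)
    (fun v hv h => ⟨hA v hv h.1, by
      rw [← h.2]
      show (V.chi (rfC eps (B.q a) (shf eps (B.q a) t v)), eeC eps (shf eps (B.q a) t v)) =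
        (V.chi (rfC eps (B.q a) v), eeC eps v)
      rw [rf_shf H ht, map_mul, hc, mul_one, sh_ee H (sh_shf H ht v)]⟩)
    (fun v hv h => congrArg Prod.snd h.2)
  have h2 : (∑ v ∈ (F.filter A).filter (fun v => φ v = φ v₁), CV.wStb x s₁ s₂ w v) *
      V.chi (rfC eps (B.q a) v₁) = 0 := by
    refine Eq.trans ?_ h1
    rw [Finset.sum_mul, Finset.filter_filter, Finset.sum_filter]
    refine Finset.sum_congr rfl fun v hv => ?_
    by_cases h : A v ∧ φ v = φ v₁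
    · rw [if_pos h, if_pos h]
      have h3 : V.chi (rfC eps (B.q a) v) = V.chi (rfC eps (B.q a) v₁) := congrArg Prod.fst h.2
      rw [h3]
    · rw [if_neg h, if_neg h]
  refine (mul_eq_zero.1 h2).resolve_right ?_
  exact ((Group.isUnit (rfC eps (B.q a) v₁)).map V.chi).ne_zero

include H in
omit [DecidableEq Q] in
/-- The move of a pair lies in `D`. -/
theorem tp_mem {q : B.L × B.L} (hq : NrP a b D q) : CV.tp B a b q ∈ D := by
  obtain ⟨h1, h2⟩ := hq
  have e : CV.tp B a b q = B.q a * (((B.q a)⁻¹ * B.q q.1) * ((B.q b)⁻¹ * B.q q.2)⁻¹) * (B.q a)⁻¹ := by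
    unfold CV.tp CV.wC
    group
  rw [e]
  exact mem_conj H (D.mul_mem h1 (D.inv_mem h2)) _

/-- STK in general: no flips, a bad vertical letter, a set `A` of strands closed under its move. -/
theorem stk_gen (hF : ∀ s ∈ F, ∀ δ ∈ D, s * δ ∈ F) {t₀ : ℕ} {x s₁ s₂ : Q} {R : Type} [Field R] {V : Vd B R}
    (hz : V.chi z = 1) (hk : (k : R) ≠ 0) {w : Q → R} (hw : ∀ s ∈ F, w ((H.up.U ^ t₀) s) = w s) {X : TW B} {n : ℕ}
    (hX : FWin H.up (2 * k) F t₀ x s₁ s₂ X n) {Λ : ℕ} (hN : CV.NoFl H F t₀ x s₁ s₂ Λ V w)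
    (hΛ : 2 * n + 2 * k * k ≤ Λ) {q : B.L × B.L} (hq : CV.Nr1 B a b D q) (hc : V.chi (CV.tp B a b q) = 1)
    (hv : V.vol 1 (flat [q]) ≠ V.vol 1 (flat [(a, b)])) {A : Q → Prop}
    (hA : ∀ v ∈ F, A v → A (shf eps (B.q a) (CV.tp B a b q) v)) : CV.sumOn F A (CV.wStb x s₁ s₂ w) = 0 := by
  have ht := tp_mem H hq.1
  have e1 : ∀ c d : B.L, V.vol 1 (flat [(c, d)]) = V.n c + V.chi (B.q c) * V.n (B.inv d) := by
    intro c d
    show V.chi 1 * V.n c + (V.chi (1 * B.q c) * V.n (B.inv d) + 0) = _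
    rw [map_one, one_mul, one_mul, add_zero]
  obtain ⟨c, d⟩ := q
  rcases hq.2 with h | h
  · -- `c = a`
    have h' : c = a := h
    subst h'
    refine core2 H hF hz hk hw hX hN hΛ ht hc (lt := B.inv d) (N₀ := 1) ?_ ?_ hA
    · show 1 * (if 0 % 2 = 0 then B.q c else (B.q b)⁻¹) * B.q (B.inv d) = CV.tp B c b (c, d) *
        (1 * (if 0 % 2 = 0 then B.q c else (B.q b)⁻¹) * (if 1 % 2 = 0 then B.q c else (B.q b)⁻¹))
      rw [if_pos (by norm_num), if_neg (by norm_num), B.q_inv]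
      unfold CV.tp CV.wC
      group
    · rw [if_neg (by norm_num)]
      intro h0
      apply hv
      rw [e1, e1, h0]
  · -- `d = b`
    have h' : d = b := h
    subst h'
    refine core2 H hF hz hk hw hX hN hΛ ht hc (lt := c) (N₀ := 0) ?_ ?_ hA
    · show 1 * B.q c = CV.tp B a d (c, d) * (1 * (if 0 % 2 = 0 then B.q a else (B.q d)⁻¹))
      rw [if_pos (by norm_num)]
      unfold CV.tp CV.wC
      group
    · rw [if_pos (by norm_num)]
      intro h0
      apply hv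
      have h3 : V.chi (B.q c) = V.chi (B.q a) := by
        have h4 : B.q c = CV.tp B a d (c, d) * B.q a := by
          unfold CV.tp CV.wC
          group
        rw [h4, map_mul, hc, one_mul]
      rw [e1, e1, h0, h3]

end core

/-- STK for one path, for any set of strands closed under the move. -/
theorem stk_cx {Q : Type} [Group Q] [DecidableEq Q] {B : Lb.{0, 0} Q} {a b : B.L} {eps : Q →* ℤˣ} {D : Subgroup Q}
    {z : Q} {k : ℕ} {H : HypC B a b eps D z k} {F : Finset Q} {T : CV.Pth H F} {x s₁ s₂ : Q} {r h W Λ p : ℕ}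
    (_ : Fact p.Prime) {V : Vd B (ZMod p)} {w : Q → ZMod p} (hC : CV.Cx T x s₁ s₂ r h W Λ V w) {q : B.L × B.L}
    (hq : CV.Nr1 B a b D q) (hc : V.chi (CV.tp B a b q) = 1) (hv : V.vol 1 (flat [q]) ≠ V.vol 1 (flat [(a, b)]))
    {A : Q → Prop} (hA : ∀ v ∈ F, A v → A (shf eps (B.q a) (CV.tp B a b q) v)) :
    CV.sumOn F A (CV.wStb x s₁ s₂ w) = 0 := by
  obtain ⟨-, -, -, -, E, n₀, hE, hn₀⟩ := CV.H59.cx_data hC
  have hkp := H.kpos
  refine stk_gen H hC.inv hC.al (CV.H59.natCast_ne hkp (by have := hC.big; omega))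
    (fun s hs => hC.wl s hs T.t₀ (T.fw.lev_lt T.f)) (CV.H59.fwin_of_ewr hC.ok hE) hC.nofl ?_ hq hc hv hA
  refine le_trans ?_ hC.hΛ
  have e2 : Nat.card (Σ c, T.Rc c) = Fintype.card (Σ c, T.Rc c) := Nat.card_eq_fintype_card
  have h1 : Nat.card (Σ c, T.Rc c) ≤ r := by rw [e2]; exact hC.ok.card
  unfold CV.lamV
  have h2 : Nat.card (Σ c, T.Rc c) * F.card ^ F.card ≤ r * (F.card + 1) ^ F.card :=
    Nat.mul_le_mul h1 (Nat.pow_le_pow_left (Nat.le_succ _) _)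
  have h3 : 1 ≤ (F.card + 1) ^ F.card := Nat.one_le_pow _ _ (Nat.succ_pos _)
  have h4 : 2 * (2 * (Nat.card (Σ c, T.Rc c) * F.card ^ F.card) + 2 + 2) ≤
      6 * ((r + 1) * (F.card + 1) ^ F.card + 1) := by
    rw [Nat.add_mul, one_mul]
    omega
  have h5 := Nat.mul_le_mul_right (2 * k + h) h4
  rw [mul_assoc] at h5
  have h6 := Nat.mul_le_mul_left 2 hn₀
  omega

/-- STK for sets of strands closed under `D`. -/
theorem stk_D {Q : Type} [Group Q] [DecidableEq Q] {B : Lb.{0, 0} Q} {a b : B.L} {eps : Q →* ℤˣ} {D : Subgroup Q}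
    {z : Q} {k : ℕ} {H : HypC B a b eps D z k} {F : Finset Q} {T : CV.Pth H F} {x s₁ s₂ : Q} {r h W Λ p : ℕ}
    (hp : Fact p.Prime) {V : Vd B (ZMod p)} {w : Q → ZMod p} (hC : CV.Cx T x s₁ s₂ r h W Λ V w) {q : B.L × B.L}
    (hq : CV.Nr1 B a b D q) (hc : V.chi (CV.tp B a b q) = 1) (hv : V.vol 1 (flat [q]) ≠ V.vol 1 (flat [(a, b)]))
    {A : Q → Prop} (hA : ∀ v ∈ F, A v → ∀ δ ∈ D, A (v * δ)) : CV.sumOn F A (CV.wStb x s₁ s₂ w) = 0 := by
  refine stk_cx hp hC hq hc hv fun v hv' h => ?_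
  obtain ⟨δ, hδ, e⟩ := (sh_shf H (tp_mem H hq.1) v).exists_mul
  rw [e]
  exact hA v hv' h δ hδ

/-- STK. -/
theorem stk : CV.StkS := by
  intro Q _ _ B a b eps D z k H F T x s₁ s₂ r h W Λ p hp V w hC q hq hc hv v₁ _
  refine stk_cx hp hC hq hc hv fun v _ hv1 => ?_
  rw [rf_shf H (tp_mem H hq.1), ← mul_assoc]
  refine (CV.KT B a b q).mul_mem hv1 (Subgroup.subset_closure ⟨0, ?_⟩)
  rw [neg_zero, zpow_zero, one_mul, mul_one]

end H87

end Pool.Agent.Lib.MP_688fd0_co.SQ4
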