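import Pool.Agent.Lib.MP_688fd0_co.SQ4.H98.ColG
import Pool.Agent.Lib.MP_688fd0_co.SQ3.V.RealA

/-!
A flat window, a vertical block, and the same window again.
-/

set_option autoImplicit false

namespace Pool.Agent.Lib.MP_688fd0_co.SQ4

open Pool.Agent.Lib.MP_688fd0_co.OSF Pool.Agent.Lib.MP_688fd0_co.SQ2 Pool.Agent.Lib.MP_688fd0_co.SQ3

namespace H87

variable {Q : Type} [Group Q] [DecidableEq Q] {B : Lb.{0, 0} Q} {U : Up B}

/-- A block of height `h` on the top of a flat window of height `n`; every strand goes straight up in the end. -/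
structure Top (U : Up B) (X : TW B) (n h : ℕ) (p : Q → List B.L) : Prop where
  blk : Blk B X.L₁ (im (U.U ^ (n + h)) X.L₀) (fun y => (U.U ^ h) y) p
  reg : bR B X.L₁ p = ∑ i ∈ Finset.Ico n (n + h), (im (U.U ^ i) X.L₀).val

/-- A flat window with a block on the top. -/
theorem postB_flat {X : TW B} {n h : ℕ} {xs : Q} (hX : Flat U X n xs) {p : Q → List B.L} (hK : Top U X n h p) :
    Flat U (postB X hK.blk) (n + h) xs where
  pos := by have := hX.pos; omega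
  top := rfl
  reg := by
    rw [postB_R, hX.reg, hK.reg]
    exact Finset.sum_range_add_sum_Ico _ (Nat.le_add_right _ _)
  xs_mem := hX.xs_mem
  w₀ := by
    show (U.U ^ h) X.w₀ = _
    rw [hX.w₀, U.U_pow_add]; rfl
  w₁ := by
    show (U.U ^ h) X.w₁ = _
    rw [hX.w₁, U.U_pow_add]
  f_xs := by
    show (U.U ^ h) (X.f xs) = _
    rw [hX.f_xs, U.U_pow_add]; rfl
  f x hx hne := by
    show (U.U ^ h) (X.f x) = _
    rw [hX.f x hx hne, U.U_pow_add]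

/-- A flat window, a block, and the same window again. -/
theorem stack {X : TW B} {n h : ℕ} {xs : Q} (hX : Flat U X n xs) {z : Q} (hz : ∀ x, (U.U ^ (n + h)) x = z * x)
    {p : Q → List B.L} (hK : Top U X n h p) :
    ∃ W : TW B, Flat U W (n + h + n) xs ∧ W.L₀ = X.L₀ ∧ W.u₀ = X.u₀ ∧ W.u₁ = X.u₁ ∧ W.cup = X.cup ∧
      W.cap = X.cap ∧ (∀ v ∈ X.tok₀, v ≠ xs → W.path v = X.path v ++ p ((U.U ^ n) v) ++ X.path v) ∧
      W.path xs = X.path xs ++ p ((U.U ^ n) X.u₀) ++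
        ((X.cup ++ (B.rev (p ((U.U ^ n) X.u₁)) ++ (X.cap ++ p ((U.U ^ n) xs)))) ++ X.path xs) := by
  obtain ⟨W, h1, h2, h3, h4, h5, h6, h7, h8⟩ := blk2 (postB_flat hX hK) hX rfl rfl rfl hz
  refine ⟨W, h1, h2, h3, h4, h5, h6, fun v hv hne => ?_, ?_⟩
  · rw [h7 v hv hne]
    show X.path v ++ p (X.f v) ++ X.path v = _
    rw [hX.f v hv hne]
  · rw [h8]
    show X.path xs ++ p (X.f xs) ++ ((X.cup ++ (B.rev (p X.w₀) ++ (X.cap ++ p X.w₁))) ++ X.path xs) = _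
    rw [hX.f_xs, hX.w₀, hX.w₁]

theorem sum_L₀ (X : TW B) {R : Type} [AddCommMonoid R] (G : Q → R) :
    ∑ v ∈ X.L₀, G v = ∑ v ∈ X.tok₀, G v + G X.u₀ + G X.u₁ := by
  show (X.L₀.val.map G).sum = _
  rw [X.L₀_val, Multiset.map_add, Multiset.map_add, Multiset.sum_add, Multiset.sum_add]
  simp only [Multiset.map_singleton, Multiset.sum_singleton]
  rfl

/-- Two blocks in the middle: two versions, and their difference. -/
theorem stack2 {X : TW B} {n h : ℕ} {xs : Q} (hX : Flat U X n xs) {z : Q} (hz : ∀ x, (U.U ^ (n + h)) x = z * x)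
    {p p' : Q → List B.L} (hK : Top U X n h p) (hK' : Top U X n h p') {R : Type} [CommRing R] (V : Vd B R)
    (w : Q → R) :
    ∃ W W' : TW B, Ver U W W' (n + h + n) xs ∧ W.L₀ = X.L₀ ∧ W.u₀ = X.u₀ ∧ W.u₁ = X.u₁ ∧ W.cup = X.cup ∧
      W.cap = X.cap ∧
      dvolw V w W W' = ∑ v ∈ X.L₀, (if v = X.u₁ then - w xs else if v = X.u₀ then w xs else w v) *
        (V.vol ((U.U ^ n) v) (p' ((U.U ^ n) v)) - V.vol ((U.U ^ n) v) (p ((U.U ^ n) v))) := by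
  obtain ⟨W, a1, a2, a3, a4, a5, a6, a7, a8⟩ := stack hX hz hK
  obtain ⟨W', b1, b2, b3, b4, b5, b6, b7, b8⟩ := stack hX hz hK'
  refine ⟨W, W', ⟨a1, b1, by rw [b2, a2], by rw [b3, a3], by rw [b4, a4], by rw [b5, a5], by rw [b6, a6]⟩,
    a2, a3, a4, a5, a6, ?_⟩
  set δ : Q → R := fun v => V.vol ((U.U ^ n) v) (p' ((U.U ^ n) v)) - V.vol ((U.U ^ n) v) (p ((U.U ^ n) v)) with hδ
  have htok : W.tok₀ = X.tok₀ := by
    ext x; rw [TW.mem_tok₀, TW.mem_tok₀, a2, a3, a4]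
  have hxs := TW.mem_tok₀.1 hX.xs_mem
  have hL : ∀ v ∈ X.L₀, (U.U ^ n) v ∈ X.L₁ := fun v hv => by
    rw [hX.top]
    exact map_mem_im.2 hv
  have hu₀ : (U.U ^ n) X.u₀ ∈ X.L₁ := hL _ X.hu₀
  have hu₁ : (U.U ^ n) X.u₁ ∈ X.L₁ := hL _ X.hu₁
  have hxs1 : (U.U ^ n) xs ∈ X.L₁ := hL _ hxs.1
  -- the tokens
  have h1 : ∀ v ∈ X.tok₀, v ≠ xs → V.vol v (W'.path v) - V.vol v (W.path v) = δ v := by
    intro v hv hne
    have hv' := TW.mem_tok₀.1 hv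
    have hf : B.fin v (X.path v) = (U.U ^ n) v := by
      rw [X.path_fin v hv'.1 hv'.2.1 hv'.2.2, hX.f v hv hne]
    rw [a7 v hv hne, b7 v hv hne]
    simp only [vol_append, fin_append, hf]
    rw [hK.blk.fin _ (hL v hv'.1), hK'.blk.fin _ (hL v hv'.1)]
    show _ = V.vol ((U.U ^ n) v) (p' ((U.U ^ n) v)) - V.vol ((U.U ^ n) v) (p ((U.U ^ n) v))
    ring
  have h2 : V.vol xs (W'.path xs) - V.vol xs (W.path xs) = δ xs + δ X.u₀ - δ X.u₁ := by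
    have hf : B.fin xs (X.path xs) = (U.U ^ n) X.u₀ := by
      rw [X.path_fin xs hxs.1 hxs.2.1 hxs.2.2, hX.f_xs]
    have hn : (U.U ^ n) X.u₁ = X.w₀ := hX.w₀.symm
    have hn' : (U.U ^ n) xs = X.w₁ := hX.w₁.symm
    have hcup : B.fin ((U.U ^ (n + h)) X.u₀) X.cup = (U.U ^ (n + h)) X.u₁ := by
      rw [hz, hz, fin_tr, X.cup_fin]
    have key : ∀ q : Q → List B.L, Top U X n h q →
        V.vol xs (X.path xs ++ q ((U.U ^ n) X.u₀) ++
          ((X.cup ++ (B.rev (q ((U.U ^ n) X.u₁)) ++ (X.cap ++ q ((U.U ^ n) xs)))) ++ X.path xs)) =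
        V.vol xs (X.path xs) + V.vol ((U.U ^ n) X.u₀) (q ((U.U ^ n) X.u₀)) +
          V.vol ((U.U ^ (n + h)) X.u₀) X.cup - V.vol ((U.U ^ n) X.u₁) (q ((U.U ^ n) X.u₁)) +
          V.vol ((U.U ^ n) X.u₁) X.cap + V.vol ((U.U ^ n) xs) (q ((U.U ^ n) xs)) +
          V.vol ((U.U ^ (n + h)) xs) (X.path xs) := by
      intro q hq
      have f0 : B.fin ((U.U ^ n) X.u₀) (q ((U.U ^ n) X.u₀)) = (U.U ^ (n + h)) X.u₀ := by
        rw [hq.blk.fin _ hu₀, U.U_pow_add]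
      have f1 : B.fin ((U.U ^ n) X.u₁) (q ((U.U ^ n) X.u₁)) = (U.U ^ (n + h)) X.u₁ := by
        rw [hq.blk.fin _ hu₁, U.U_pow_add]
      have f2 : B.fin ((U.U ^ n) xs) (q ((U.U ^ n) xs)) = (U.U ^ (n + h)) xs := by
        rw [hq.blk.fin _ hxs1, U.U_pow_add]
      have f3 : B.fin ((U.U ^ (n + h)) X.u₁) (B.rev (q ((U.U ^ n) X.u₁))) = (U.U ^ n) X.u₁ := by
        rw [← f1, fin_rev]
      have f4 : V.vol ((U.U ^ (n + h)) X.u₁) (B.rev (q ((U.U ^ n) X.u₁))) =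
          - V.vol ((U.U ^ n) X.u₁) (q ((U.U ^ n) X.u₁)) := by
        rw [← f1, vol_rev]
      have f5 : B.fin ((U.U ^ n) X.u₁) X.cap = (U.U ^ n) xs := by
        rw [hn, hn', X.cap_fin]
      simp only [vol_append, fin_append, hf, f0, hcup, f3, f4, f5, f2]
      ring
    rw [a8, b8, key p hK, key p' hK']
    show _ = (V.vol ((U.U ^ n) xs) (p' ((U.U ^ n) xs)) - V.vol ((U.U ^ n) xs) (p ((U.U ^ n) xs))) +
      (V.vol ((U.U ^ n) X.u₀) (p' ((U.U ^ n) X.u₀)) - V.vol ((U.U ^ n) X.u₀) (p ((U.U ^ n) X.u₀))) -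
      (V.vol ((U.U ^ n) X.u₁) (p' ((U.U ^ n) X.u₁)) - V.vol ((U.U ^ n) X.u₁) (p ((U.U ^ n) X.u₁)))
    ring
  show ∑ v ∈ W.tok₀, w v * (V.vol v (W'.path v) - V.vol v (W.path v)) =
    ∑ v ∈ X.L₀, (if v = X.u₁ then - w xs else if v = X.u₀ then w xs else w v) * δ v
  rw [htok, sum_L₀, if_neg X.hu, if_pos rfl, if_pos rfl]
  have h3 : ∑ v ∈ X.tok₀, (if v = X.u₁ then - w xs else if v = X.u₀ then w xs else w v) * δ v =
      ∑ v ∈ X.tok₀, w v * δ v := by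
    refine Finset.sum_congr rfl fun v hv => ?_
    have hv' := TW.mem_tok₀.1 hv
    rw [if_neg hv'.2.2, if_neg hv'.2.1]
  rw [h3, ← Finset.add_sum_erase _ _ hX.xs_mem, ← Finset.add_sum_erase X.tok₀ (fun v => w v * δ v) hX.xs_mem, h2]
  have h4 : ∑ v ∈ X.tok₀.erase xs, w v * (V.vol v (W'.path v) - V.vol v (W.path v)) =
      ∑ v ∈ X.tok₀.erase xs, w v * δ v := by
    refine Finset.sum_congr rfl fun v hv => ?_
    rw [h1 v (Finset.mem_of_mem_erase hv) (Finset.ne_of_mem_erase hv)]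
  rw [h4]
  ring

end H87

end Pool.Agent.Lib.MP_688fd0_co.SQ4
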