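import Pool.Agent.Lib.MP_688fd0_co.SQ4.H87.Stk0
import Pool.Agent.Lib.MP_688fd0_co.SQ4.H98.ShiftC

/-!
The vertical block with one exceptional letter on a set of strands, repeated.
-/

set_option autoImplicit false

namespace Pool.Agent.Lib.MP_688fd0_co.SQ4

open Pool.Agent.Lib.MP_688fd0_co.OSF Pool.Agent.Lib.MP_688fd0_co.SQ2 Pool.Agent.Lib.MP_688fd0_co.SQ3

namespace H87

section rep

variable {S : Type} [Fintype S] {Q : Type} [Group Q] {B : Lb.{0, 0} Q} {U : Up B} {g : S → Q}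

/-- The paths of `m` copies of a block. -/
def repP (π : Equiv.Perm S) (p : S → List B.L) : ℕ → S → List B.L
  | 0 => fun _ => []
  | m + 1 => fun s => repP π p m s ++ p ((π ^ m) s)

theorem rep_vbk [DecidableEq Q] {e : ℕ} {ζ : Q} (hP : Per U e ζ) {l : ℕ} {π : Equiv.Perm S} {p : S → List B.L}
    (X : VBk U g l e π p) (m : ℕ) : VBk U g l (e * m) (π ^ m) (repP π p m) := by
  induction m with
  | zero => exact VBk.str U g l 0
  | succ m ih =>
    have h := ih.comp (X.tr hP m)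
    rw [← pow_succ'] at h
    exact h

/-- The volume of `m` copies. -/
theorem rep_vol [DecidableEq Q] {e : ℕ} {ζ : Q} (hP : Per U e ζ) {l : ℕ} {π : Equiv.Perm S} {p : S → List B.L}
    (X : VBk U g l e π p) {R : Type} [CommRing R] (V : Vd B R) (hz : V.chi ζ = 1) {s : S} {c : R}
    (hc : ∀ j : ℕ, V.vol ((U.U ^ l) (g ((π ^ j) s))) (p ((π ^ j) s)) = c) (m : ℕ) :
    V.vol ((U.U ^ l) (g s)) (repP π p m s) = m * c := by
  induction m with
  | zero => show (0 : R) = _; rw [Nat.cast_zero, zero_mul]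
  | succ m ih =>
    show V.vol _ (repP π p m s ++ p ((π ^ m) s)) = _
    rw [vol_append, ih, (rep_vbk hP X m).fin, U.U_pow_add, per_mul hP, vol_tr, map_pow, hz, one_pow, one_mul, hc,
      Nat.cast_succ]
    ring

end rep

section ltr

variable {Q : Type} [Group Q] {B : Lb.{0, 0} Q} {a b : B.L} {eps : Q →* ℤˣ} {D : Subgroup Q} {z : Q} {k : ℕ}

theorem uC_per (H : HypC B a b eps D z k) (j n : ℕ) :
    uC (B.q a) (B.q b) (2 * k * j + n) = z ^ (k * j) * uC (B.q a) (B.q b) n := by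
  induction n with
  | zero =>
    rw [add_zero, mul_assoc, uC_even, pow_mul, H31.C_w_pow H, ← pow_mul]
    exact (mul_one _).symm
  | succ n ih =>
    show uC (B.q a) (B.q b) (2 * k * j + n) * (if (2 * k * j + n) % 2 = 0 then B.q a else (B.q b)⁻¹) =
      z ^ (k * j) * (uC (B.q a) (B.q b) n * (if n % 2 = 0 then B.q a else (B.q b)⁻¹))
    have h1 : (2 * k * j + n) % 2 = n % 2 := by
      rw [mul_assoc, Nat.mul_add_mod]
    rw [ih, h1, mul_assoc]

/-- The letter `l` at the total level `N` acts as the right multiplication of the reference vertex by `t`. -/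
def Ltr (B : Lb.{0, 0} Q) (a b : B.L) (t : Q) (l : B.L) (N : ℕ) : Prop :=
  uC (B.q a) (B.q b) N * B.q l = t * uC (B.q a) (B.q b) (N + 1)

theorem Ltr.mod (H : HypC B a b eps D z k) {t : Q} (ht : t ∈ D) {l : B.L} {N N' : ℕ} (h : Ltr B a b t l N)
    (hN : N' % (2 * k) = N % (2 * k)) : Ltr B a b t l N' := by
  have hz : ∀ j : ℕ, t * z ^ j = z ^ j * t := fun j => ((show Commute t z from H.cen t (H.leD ht)).pow_right j).eq
  have key : ∀ n j : ℕ, Ltr B a b t l (2 * k * j + n) ↔ Ltr B a b t l n := by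
    intro n j
    unfold Ltr
    rw [add_assoc, uC_per H, uC_per H, ← mul_assoc t, hz, mul_assoc, mul_assoc]
    exact mul_right_inj _
  have e1 := Nat.div_add_mod N (2 * k)
  have e2 := Nat.div_add_mod N' (2 * k)
  rw [← e2, key, hN, ← key _ (N / (2 * k)), e1]
  exact h

theorem exists_lev {K : ℕ} (hK : 0 < K) (A N : ℕ) : ∃ r r' : ℕ, r + 1 + r' = K ∧ (A + r) % K = N % K := by
  refine ⟨(N + (K - A % K)) % K, K - 1 - (N + (K - A % K)) % K, ?_, ?_⟩
  · have := Nat.mod_lt (N + (K - A % K)) hK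
    omega
  · have h1 := Nat.mod_lt A hK
    rw [Nat.add_mod, Nat.mod_mod, ← Nat.add_mod]
    have h2 : A + (N + (K - A % K)) = N + (K + (A - A % K)) := by
      have := Nat.mod_le A K
      omega
    rw [h2]
    have h3 : A - A % K = K * (A / K) := by
      have := Nat.div_add_mod A K
      omega
    rw [h3, show N + (K + K * (A / K)) = N + K * (1 + A / K) by ring, Nat.add_mul_mod_self_left]

end ltr

section blk

variable {Q : Type} [Group Q] {B : Lb.{0, 0} Q} {a b : B.L} {eps : Q →* ℤˣ} {D : Subgroup Q} {z : Q} {k : ℕ}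
  (H : HypC B a b eps D z k)

include H

theorem str_sh {x y : Q} (h : Sh D x y) (m : ℕ) : H.up.str m y = H.up.str m x := by
  induction m generalizing x y with
  | zero => rfl
  | succ m ih =>
    rw [H.up.str_succ, H.up.str_succ, (shuC H).sh_up h, ih ((shuC H).upp h)]

/-- The letter moves the strands of `κ` by `t`. -/
theorem exists_perm {F : Finset Q} (hF : ∀ s ∈ F, ∀ δ ∈ D, s * δ ∈ F) {t : Q} (ht : t ∈ D) {κ : Q → Prop}
    (hκ : ∀ v ∈ F, κ v → κ (shf eps (B.q a) t v)) :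
    ∃ π : Equiv.Perm {v // v ∈ F}, (∀ v : {v // v ∈ F}, κ v → (π v : Q) = shf eps (B.q a) t v) ∧
      ∀ v : {v // v ∈ F}, ¬ κ v → π v = v := by
  classical
  have hmem : ∀ v ∈ F, shf eps (B.q a) t v ∈ F := by
    intro v hv
    obtain ⟨δ, hδ, h⟩ := (sh_shf H ht v).exists_mul
    rw [h]
    exact hF v hv δ hδ
  let φ : {v : {v // v ∈ F} // κ v} → {v : {v // v ∈ F} // κ v} := fun v =>
    ⟨⟨shf eps (B.q a) t v.1, hmem _ v.1.2⟩, hκ _ v.1.2 v.2⟩
  have hinj : Function.Injective φ := by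
    intro v v' h
    have h1 : shf eps (B.q a) t v.1 = shf eps (B.q a) t v'.1 := congrArg (fun x => ((x.1 : {v // v ∈ F}) : Q)) h
    refine Subtype.ext (Subtype.ext ?_)
    have h2 := congrArg (shf eps (B.q a) t⁻¹) h1
    rw [shf_mul H ht, shf_mul H ht, mul_inv_cancel, shf_one, shf_one] at h2
    exact h2
  let E : Equiv.Perm {v : {v // v ∈ F} // κ v} := Equiv.ofBijective φ (Finite.injective_iff_bijective.1 hinj)
  refine ⟨E.extendDomain (Equiv.refl {v : {v // v ∈ F} // κ v}), fun v hv => ?_, fun v hv => ?_⟩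
  · rw [Equiv.Perm.extendDomain_apply_subtype E (Equiv.refl {v : {v // v ∈ F} // κ v}) hv]
    rfl
  · exact Equiv.Perm.extendDomain_apply_not_subtype E (Equiv.refl {v : {v // v ∈ F} // κ v}) hv

/-- The powers. -/
theorem perm_pow {F : Finset Q} {t : Q} (ht : t ∈ D) {κ : Q → Prop}
    (hκ : ∀ v ∈ F, κ v → κ (shf eps (B.q a) t v)) {π : Equiv.Perm {v // v ∈ F}}
    (h1 : ∀ v : {v // v ∈ F}, κ v → (π v : Q) = shf eps (B.q a) t v) (j : ℕ) (v : {v // v ∈ F}) (hv : κ v) :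
    κ ((π ^ j) v : {v // v ∈ F}) ∧ ((π ^ j) v : Q) = shf eps (B.q a) (t ^ j) v := by
  induction j with
  | zero => exact ⟨hv, by rw [pow_zero t, shf_one]; rfl⟩
  | succ j ih =>
    have h2 : (π ^ (j + 1)) v = π ((π ^ j) v) := by rw [pow_succ']; rfl
    rw [h2, h1 _ ih.1, pow_succ]
    refine ⟨hκ _ ((π ^ j) v).2 ih.1, ?_⟩
    rw [ih.2, shf_mul H (D.pow_mem ht j)]

omit H in
/-- Outside. -/
theorem perm_pow' {F : Finset Q} {κ : Q → Prop} {π : Equiv.Perm {v // v ∈ F}}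
    (h2 : ∀ v : {v // v ∈ F}, ¬ κ v → π v = v) (j : ℕ) (v : {v // v ∈ F}) (hv : ¬ κ v) : (π ^ j) v = v := by
  induction j with
  | zero => rfl
  | succ j ih =>
    have h3 : (π ^ (j + 1)) v = π ((π ^ j) v) := by rw [pow_succ']; rfl
    rw [h3, ih, h2 v hv]

/-- The block with one exceptional letter. -/
theorem exists_one [DecidableEq Q] {F : Finset Q} {t : Q} (ht : t ∈ D) {κ : Q → Prop} {e₀ : ℕ}
    (he : ∀ v ∈ F, κ v → eeC eps v = e₀) {π : Equiv.Perm {v // v ∈ F}}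
    (h1 : ∀ v : {v // v ∈ F}, κ v → (π v : Q) = shf eps (B.q a) t v)
    (h2 : ∀ v : {v // v ∈ F}, ¬ κ v → π v = v) {lt : B.L} {N₀ : ℕ} (hl : Ltr B a b t lt N₀) (l : ℕ) {R : Type}
    [CommRing R] (V : Vd B R) (hc : V.chi t = 1) :
    ∃ (p : {v // v ∈ F} → List B.L) (C : R), IsUnit C ∧ VBk H.up (fun v : {v // v ∈ F} => (v : Q)) l (2 * k) π p ∧
      (∀ v : {v // v ∈ F}, κ v → V.vol ((H.up.U ^ l) v) (p v) =
        V.vol ((H.up.U ^ l) v) (H.up.str (2 * k) ((H.up.U ^ l) v)) +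
          V.chi (rfC eps (B.q a) v) * (C * (V.n lt - V.n (if N₀ % 2 = 0 then a else B.inv b)))) ∧
      ∀ v : {v // v ∈ F}, ¬ κ v → V.vol ((H.up.U ^ l) v) (p v) =
        V.vol ((H.up.U ^ l) v) (H.up.str (2 * k) ((H.up.U ^ l) v)) := by
  classical
  have hk : 0 < 2 * k := by have := H.kpos; omega
  obtain ⟨r, r', hr, hr2⟩ := exists_lev hk (l + e₀) N₀
  have hL : Ltr B a b t lt (l + e₀ + r) := hl.mod H ht hr2
  have hpar : (l + e₀ + r) % 2 = N₀ % 2 := by
    have h3 := congrArg (· % 2) hr2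
    simp only [Nat.mod_mul_right_mod] at h3
    exact h3
  set lv : {v // v ∈ F} → B.L := fun v => if κ v then lt else H.up.up ((H.up.U ^ (l + r)) (v : Q)) with hlv
  have hone : VBk H.up (fun v : {v // v ∈ F} => (v : Q)) (l + r) 1 π fun v => [lv v] := by
    refine VBk.one fun v => ?_
    show (H.up.U ^ (l + r)) (v : Q) * B.q (if κ v then lt else H.up.up ((H.up.U ^ (l + r)) (v : Q))) = _
    by_cases hv : κ v
    · rw [if_pos hv, h1 v hv, U_shf H ht, U_rf_pow H, he v v.2 hv, mul_assoc]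
      unfold Ltr at hL
      rw [show l + r + e₀ = l + e₀ + r by ring, hL, show l + r + 1 + e₀ = l + e₀ + r + 1 by ring]
    · rw [if_neg hv, h2 v hv, H.up.U_pow_succ', H.up.hU]
  have hblk := ((VBk.str H.up (fun v : {v // v ∈ F} => (v : Q)) l r).comp hone).comp
    (VBk.str H.up (fun v : {v // v ∈ F} => (v : Q)) (l + (r + 1)) r')
  rw [hr, mul_one, one_mul] at hblk
  refine ⟨_, V.chi (uC (B.q a) (B.q b) (l + e₀ + r)), ?_, hblk, fun v hv => ?_, fun v hv => ?_⟩
  · exact (Group.isUnit (uC (B.q a) (B.q b) (l + e₀ + r))).map V.chi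
  · have hsh : Sh D ((H.up.U ^ (l + r + 1)) (v : Q)) ((H.up.U ^ (l + r + 1)) (π v : {v // v ∈ F})) := by
      rw [h1 v hv]
      exact (shuC H).pow _ (sh_shf H ht _)
    have hchi : V.chi ((H.up.U ^ (l + r + 1)) (π v : {v // v ∈ F})) = V.chi ((H.up.U ^ (l + r + 1)) (v : Q)) := by
      rw [h1 v hv, U_shf H ht, U_rf_pow H, map_mul, map_mul, hc, one_mul, map_mul]
    have hup : H.up.up ((H.up.U ^ (l + r)) (v : Q)) = if N₀ % 2 = 0 then a else B.inv b := by
      rw [H31.C_up H, U_rf_pow H, he v v.2 hv]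
      have h4 := eps_uC H (eps_rf H (v : Q)) (l + r + e₀)
      rw [show l + r + e₀ = l + e₀ + r by ring] at h4 ⊢
      rw [hpar] at h4
      by_cases h5 : N₀ % 2 = 0
      · rw [if_pos (h4.2 h5), if_pos h5]
      · rw [if_neg fun h6 => h5 (h4.1 h6), if_neg h5]
    have hstr : H.up.str (2 * k) ((H.up.U ^ l) (v : Q)) = H.up.str r ((H.up.U ^ l) (v : Q)) ++
        [H.up.up ((H.up.U ^ (l + r)) (v : Q))] ++ H.up.str r' ((H.up.U ^ (l + r + 1)) (v : Q)) := by
      rw [← hr, H.up.str_add, H.up.str_succ', ← H.up.U_pow_add, ← H.up.U_pow_add, ← add_assoc]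
    have hvv : lv v = lt := if_pos hv
    show V.vol ((H.up.U ^ l) (v : Q)) (H.up.str r ((H.up.U ^ l) (v : Q)) ++ [lv v] ++
      H.up.str r' ((H.up.U ^ (l + (r + 1))) (π v : {v // v ∈ F}))) = _
    rw [hstr, hvv, ← add_assoc, str_sh H hsh, vol_append, vol_append, vol_append, vol_append, fin_append, fin_append,
      H.up.fin_str, ← H.up.U_pow_add, hup]
    have hfin : B.fin ((H.up.U ^ (l + r)) (v : Q)) [lt] = (H.up.U ^ (l + r + 1)) (π v : {v // v ∈ F}) := by
      have := hone.fin v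
      rwa [hvv] at this
    have hfin' : B.fin ((H.up.U ^ (l + r)) (v : Q)) [if N₀ % 2 = 0 then a else B.inv b] =
        (H.up.U ^ (l + r + 1)) (v : Q) := by
      rw [← hup, H.up.U_pow_succ', H.up.hU]; rfl
    rw [hfin, hfin']
    have hv1 : ∀ (x : Q) (L : List B.L), V.vol x L = V.chi x * V.vol 1 L := fun x L => by
      have := vol_tr V x 1 L
      rwa [mul_one] at this
    rw [hv1 ((H.up.U ^ (l + r + 1)) (π v : {v // v ∈ F})), hchi, ← hv1]
    show _ + (V.chi ((H.up.U ^ (l + r)) (v : Q)) * V.n lt + 0) + _ =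
      _ + (V.chi ((H.up.U ^ (l + r)) (v : Q)) * V.n (if N₀ % 2 = 0 then a else B.inv b) + 0) + _ + _
    rw [U_rf_pow H (l + r), he v v.2 hv, map_mul, show l + r + e₀ = l + e₀ + r by ring]
    ring
  · have hstr : H.up.str (2 * k) ((H.up.U ^ l) (v : Q)) = H.up.str r ((H.up.U ^ l) (v : Q)) ++
        [H.up.up ((H.up.U ^ (l + r)) (v : Q))] ++ H.up.str r' ((H.up.U ^ (l + r + 1)) (v : Q)) := by
      rw [← hr, H.up.str_add, H.up.str_succ', ← H.up.U_pow_add, ← H.up.U_pow_add, ← add_assoc]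
    have hvv : lv v = H.up.up ((H.up.U ^ (l + r)) (v : Q)) := if_neg hv
    show V.vol ((H.up.U ^ l) (v : Q)) (H.up.str r ((H.up.U ^ l) (v : Q)) ++ [lv v] ++
      H.up.str r' ((H.up.U ^ (l + (r + 1))) (π v : {v // v ∈ F}))) = _
    rw [hstr, hvv, h2 v hv, ← add_assoc]

end blk

end H87

end Pool.Agent.Lib.MP_688fd0_co.SQ4
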